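import Pool.Agent.MP_8e2340_co.Main

/-!
# The distinguishing extension number of the plane under rigid motions

We prove `ext_D(ℝ², SE(2)) = 4`.
-/

namespace Pool.Agent.Results.MP_8e2340_co.ExtNumberFour

open Set

section General

variable (Γ : Type*) (X : Type*) [Group Γ] [MulAction Γ X]

/-- A colouring is distinguishing if only the identity of `Γ` preserves it. -/
def IsDistinguishing {X : Type*} [MulAction Γ X] {k : ℕ} (c : X → Fin k) : Prop :=
  ∀ γ : Γ, (∀ x, c (γ • x) = c x) → γ = 1

/-- The distinguishing number: the least number of colours of a distinguishing colouring. -/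
noncomputable def distNumber : ℕ := sInf {k : ℕ | ∃ c : X → Fin k, IsDistinguishing Γ c}

/-- A set is admissible if its pointwise stabilizer is trivial. -/
def Admissible {X : Type*} [MulAction Γ X] (W : Set X) : Prop :=
  ∀ γ : Γ, (∀ x ∈ W, γ • x = x) → γ = 1

/-- Every colouring of the complement of `W` with `k = D_Γ(X)` colours extends to a
distinguishing colouring of `X` with `k` colours. -/
def ExtProp {X : Type*} [MulAction Γ X] (W : Set X) : Prop :=
  ∀ c : {x // x ∉ W} → Fin (distNumber Γ X), ∃ c' : X → Fin (distNumber Γ X),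
    (∀ x : {x // x ∉ W}, c' x = c x) ∧ IsDistinguishing Γ c'

/-- The distinguishing extension number: the least natural number `n` such that `ExtProp` holds
for every admissible set with at least `n` elements, and `∞` if there is no such `n`. -/
noncomputable def extD : ℕ∞ :=
  sInf {n : ℕ∞ | ∃ m : ℕ, n = m ∧
    ∀ W : Set X, Admissible Γ W → (m : ℕ∞) ≤ W.encard → ExtProp Γ W}

end General

/-- The group `SE(2)` of the maps `v ↦ A v + b` of `ℝ²`, with `A ∈ SO(2)` and `b ∈ ℝ²`. -/
def SE2 : Subgroup (Equiv.Perm (Fin 2 → ℝ)) where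
  carrier := {σ | ∃ A ∈ Matrix.specialOrthogonalGroup (Fin 2) ℝ, ∃ b : Fin 2 → ℝ,
    ∀ v, σ v = A.mulVec v + b}
  mul_mem' := by
    rintro σ τ ⟨A, hA, b, hσ⟩ ⟨B, hB, b', hτ⟩
    refine ⟨A * B, mul_mem hA hB, A.mulVec b' + b, fun v => ?_⟩
    rw [Equiv.Perm.mul_apply, hτ, hσ, Matrix.mulVec_add, Matrix.mulVec_mulVec, add_assoc]
  one_mem' := ⟨1, one_mem _, 0, fun v => by simp⟩
  inv_mem' := by
    rintro σ ⟨A, hA, b, hσ⟩
    have hA' := Matrix.mem_specialOrthogonalGroup_iff.mp hA
    have h1 : A.transpose * A = 1 := (Matrix.mem_orthogonalGroup_iff' (Fin 2) ℝ).mp hA'.1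
    have hAt : A.transpose ∈ Matrix.specialOrthogonalGroup (Fin 2) ℝ := by
      rw [Matrix.mem_specialOrthogonalGroup_iff]
      refine ⟨?_, by rw [Matrix.det_transpose]; exact hA'.2⟩
      rw [Matrix.mem_orthogonalGroup_iff, Matrix.transpose_transpose]
      exact h1
    refine ⟨A.transpose, hAt, -(A.transpose.mulVec b), fun v => ?_⟩
    have h2 : v = A.mulVec (σ⁻¹ v) + b := by
      rw [← hσ]; exact (σ.apply_symm_apply v).symm
    conv_rhs => rw [h2]
    rw [Matrix.mulVec_add, Matrix.mulVec_mulVec, h1, Matrix.one_mulVec]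
    abel

/-! ### The complex coordinate -/

/-- the complex coordinate on the plane -/
noncomputable def toC : (Fin 2 → ℝ) ≃ ℂ where
  toFun v := ⟨v 0, v 1⟩
  invFun z := ![z.re, z.im]
  left_inv v := by funext i; fin_cases i <;> rfl
  right_inv z := rfl

lemma toC_apply (v : Fin 2 → ℝ) : toC v = ⟨v 0, v 1⟩ := rfl

lemma exists_motion {σ : Equiv.Perm (Fin 2 → ℝ)} (hσ : σ ∈ SE2) :
    ∃ ω b : ℂ, ‖ω‖ = 1 ∧ ∀ v, toC (σ v) = ω * toC v + b := by
  obtain ⟨A, hA, b, hv⟩ := hσ
  obtain ⟨h1, h2, h3⟩ := Matrix.mem_specialOrthogonalGroup_fin_two_iff.mp hA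
  refine ⟨⟨A 0 0, A 1 0⟩, ⟨b 0, b 1⟩, ?_, fun v => ?_⟩
  · rw [← sq_eq_sq₀ (norm_nonneg _) zero_le_one, Complex.sq_norm, Complex.normSq_apply]
    simp only
    rw [h2] at h3
    linarith
  · rw [toC_apply, toC_apply, hv]
    apply Complex.ext
    · simp only [Pi.add_apply, Matrix.mulVec, dotProduct, Fin.sum_univ_two, Complex.add_re,
        Complex.mul_re]
      rw [h2]; ring
    · simp only [Pi.add_apply, Matrix.mulVec, dotProduct, Fin.sum_univ_two, Complex.add_im,
        Complex.mul_im]
      rw [h1]; ring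

lemma eq_one_of_motion {γ : SE2} {ω b : ℂ} (h : ∀ v, toC (γ • v) = ω * toC v + b)
    (hω : ω = 1) (hb : b = 0) : γ = 1 := by
  apply Subtype.ext
  apply Equiv.ext
  intro v
  apply toC.injective
  have := h v
  rw [hω, hb, one_mul, add_zero] at this
  exact this

lemma exists_motion' (γ : SE2) : ∃ ω b : ℂ, ‖ω‖ = 1 ∧ ∀ v, toC (γ • v) = ω * toC v + b :=
  exists_motion γ.2

/-- colourings and integer valued functions on the complex plane -/
lemma distinguishing_of_not_hasSym {c : (Fin 2 → ℝ) → Fin 2}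
    (h : ¬ Pool.Agent.MP_8e2340_co.HasSym (fun z => ((c (toC.symm z) : ℕ) : ℤ))) :
    IsDistinguishing SE2 c := by
  intro γ hγ
  obtain ⟨ω, b, hω, hmot⟩ := exists_motion' γ
  have hinv : Pool.Agent.MP_8e2340_co.Inv (fun z => ((c (toC.symm z) : ℕ) : ℤ)) ω b := by
    intro z
    have h1 : toC.symm (ω * z + b) = γ • toC.symm z := by
      rw [Equiv.symm_apply_eq, hmot, Equiv.apply_symm_apply]
    simp only
    rw [h1, hγ]
  by_contra hne
  apply h
  refine ⟨ω, b, hω, ?_, hinv⟩
  by_contra hcon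
  push Not at hcon
  exact hne (eq_one_of_motion hmot hcon.1 hcon.2)

/-- the half-turn about the point `p` -/
def hturn (p : Fin 2 → ℝ) : SE2 :=
  ⟨{ toFun := fun v => p + p - v
     invFun := fun v => p + p - v
     left_inv := fun v => by simp
     right_inv := fun v => by simp },
    ⟨-1, by
      rw [Matrix.mem_specialOrthogonalGroup_fin_two_iff]
      simp, p + p, fun v => by
      change p + p - v = (-1 : Matrix (Fin 2) (Fin 2) ℝ).mulVec v + (p + p)
      rw [Matrix.neg_mulVec, Matrix.one_mulVec]; abel⟩⟩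

lemma hturn_smul (p v : Fin 2 → ℝ) : hturn p • v = p + p - v := rfl

lemma hturn_ne_one (p : Fin 2 → ℝ) : hturn p ≠ 1 := by
  intro h
  have h1 : hturn p • (p + 1) = p + 1 := by rw [h, one_smul]
  rw [hturn_smul] at h1
  have h2 := congrFun h1 0
  simp only [Pi.add_apply, Pi.sub_apply, Pi.one_apply] at h2
  linarith

/-! ### The distinguishing number is two -/

lemma exists_distinguishing : ∃ c : (Fin 2 → ℝ) → Fin 2, IsDistinguishing SE2 c := by
  classical
  obtain ⟨S, -, hS⟩ := Pool.Agent.MP_8e2340_co.main 0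
    ((Finset.range 4).image fun n : ℕ => (n : ℂ)) (by
      rw [Finset.card_image_of_injective _ Nat.cast_injective, Finset.card_range])
  refine ⟨fun v => if toC v ∈ S then 1 else 0, distinguishing_of_not_hasSym ?_⟩
  convert hS using 2
  funext z
  simp only [Equiv.apply_symm_apply, zero_add]
  unfold Pool.Agent.MP_8e2340_co.ind
  split_ifs <;> simp

lemma distNumber_eq : distNumber SE2 (Fin 2 → ℝ) = 2 := by
  apply le_antisymm
  · exact Nat.sInf_le exists_distinguishing
  · refine le_csInf ⟨2, exists_distinguishing⟩ ?_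
    rintro k ⟨c, hc⟩
    by_contra hk
    have : Subsingleton (Fin k) := Fin.subsingleton_iff_le_one.mpr (by omega)
    exact hturn_ne_one 0 (hc _ fun x => Subsingleton.elim _ _)

/-- `ExtProp` with the number of colours as a parameter -/
lemma extProp_iff (W : Set (Fin 2 → ℝ)) : ExtProp SE2 W ↔
    ∀ c : {x // x ∉ W} → Fin 2, ∃ c' : (Fin 2 → ℝ) → Fin 2,
      (∀ x : {x // x ∉ W}, c' x = c x) ∧ IsDistinguishing SE2 c' := by
  unfold ExtProp
  rw [distNumber_eq]

/-! ### Upper bound -/

lemma extProp_of_four {W : Set (Fin 2 → ℝ)} (hW : 4 ≤ W.encard) : ExtProp SE2 W := by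
  classical
  rw [extProp_iff]
  intro c
  obtain ⟨W', hW'sub, hW'card⟩ := Set.exists_subset_encard_eq hW
  have hfin : W'.Finite := Set.finite_of_encard_eq_coe (k := 4) hW'card
  let T : Finset ℂ := hfin.toFinset.image toC
  have hT : T.card = 4 := by
    rw [Finset.card_image_of_injective _ toC.injective]
    have := hfin.encard_eq_coe_toFinset_card
    rw [hW'card] at this
    exact_mod_cast this.symm
  let f : ℂ → ℤ := fun z => if h : toC.symm z ∉ W then ((c ⟨toC.symm z, h⟩ : ℕ) : ℤ) else 0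
  obtain ⟨S, hST, hS⟩ := Pool.Agent.MP_8e2340_co.main f T hT
  refine ⟨fun v => if h : v ∉ W then c ⟨v, h⟩ else if toC v ∈ S then 1 else 0, ?_, ?_⟩
  · rintro ⟨x, hx⟩
    simp [hx]
  · apply distinguishing_of_not_hasSym
    convert hS using 2
    funext z
    simp only [f, Pi.add_apply, Pool.Agent.MP_8e2340_co.ind, Equiv.apply_symm_apply]
    by_cases h : toC.symm z ∉ W
    · have hz : z ∉ S := by
        intro hz
        have := hST hz
        simp only [T, Finset.mem_image, Set.Finite.mem_toFinset] at this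
        obtain ⟨v, hv, rfl⟩ := this
        apply h
        rw [Equiv.symm_apply_apply]; exact hW'sub hv
      simp [h, hz]
    · simp only [h, dite_false, zero_add]
      split_ifs <;> simp

/-! ### Lower bound -/

/-- three collinear points -/
def W₃ : Set (Fin 2 → ℝ) := {![-1, 0], ![0, 0], ![1, 0]}

lemma W₃_encard : W₃.encard = 3 := by
  unfold W₃
  rw [Set.encard_insert_of_notMem, Set.encard_pair]
  · norm_num
  · intro h
    have := congrFun h 0
    norm_num at this
  · rintro (h | h)
    · have := congrFun h 0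
      norm_num at this
    · have := congrFun h 0
      norm_num at this

lemma W₃_admissible : Admissible SE2 W₃ := by
  intro γ hγ
  obtain ⟨ω, b, -, hmot⟩ := exists_motion' γ
  have h0 := hmot ![0, 0]
  rw [hγ _ (by simp [W₃])] at h0
  have h1 := hmot ![1, 0]
  rw [hγ _ (by simp [W₃])] at h1
  have e0 : toC ![0, 0] = 0 := rfl
  have e1 : toC ![1, 0] = 1 := rfl
  rw [e0, mul_zero, zero_add] at h0
  rw [e1, ← h0, mul_one, add_zero] at h1
  exact eq_one_of_motion hmot h1.symm h0.symm

/-- to check invariance under a half-turn of a colouring that is constant off `W₃` -/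
lemma invariant_of_W₃ {c : (Fin 2 → ℝ) → Fin 2} (hc : ∀ v, v ∉ W₃ → c v = 1) (p : Fin 2 → ℝ)
    (h : ∀ v ∈ W₃, c (p + p - v) = c v) : ∀ v, c (hturn p • v) = c v := by
  intro v
  rw [hturn_smul]
  by_cases hv : v ∈ W₃
  · exact h v hv
  · by_cases hv' : p + p - v ∈ W₃
    · have := h _ hv'
      rw [sub_sub_cancel] at this
      exact this.symm
    · rw [hc _ hv, hc _ hv']

lemma vec_sub (x y : ℝ) :
    (![x, 0] : Fin 2 → ℝ) + ![x, 0] - ![y, 0] = ![x + x - y, 0] := by
  funext i
  fin_cases i <;> simp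

lemma notMem_W₃ {x : ℝ} (h1 : x ≠ -1) (h2 : x ≠ 0) (h3 : x ≠ 1) :
    (![x, 0] : Fin 2 → ℝ) ∉ W₃ := by
  rintro (h | h | h)
  · exact h1 (by simpa using congrFun h 0)
  · exact h2 (by simpa using congrFun h 0)
  · exact h3 (by simpa using congrFun h 0)

lemma not_extProp_W₃ : ¬ ExtProp SE2 W₃ := by
  rw [extProp_iff]
  intro h
  obtain ⟨c, hc, hdist⟩ := h (fun _ => 1)
  have hc' : ∀ v, v ∉ W₃ → c v = 1 := fun v hv => hc ⟨v, hv⟩
  have off : ∀ x : ℝ, x ≠ -1 → x ≠ 0 → x ≠ 1 → c ![x, 0] = 1 :=
    fun x h1 h2 h3 => hc' _ (notMem_W₃ h1 h2 h3)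
  -- it suffices to find the centre of a half-turn
  have key : ∀ x : ℝ, c ![x + x - (-1), 0] = c ![-1, 0] → c ![x + x - 0, 0] = c ![0, 0] →
      c ![x + x - 1, 0] = c ![1, 0] → False := by
    intro x h1 h2 h3
    refine hturn_ne_one ![x, 0] (hdist _ (invariant_of_W₃ hc' _ ?_))
    rintro v (rfl | rfl | rfl)
    · rw [vec_sub]; exact h1
    · rw [vec_sub]; exact h2
    · rw [vec_sub]; exact h3
  have two : ∀ i : Fin 2, i = 0 ∨ i = 1 := by decide
  by_cases hac : c ![-1, 0] = c ![1, 0]
  · apply key 0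
    · rw [show (0 : ℝ) + 0 - (-1) = 1 by norm_num]; exact hac.symm
    · rw [show (0 : ℝ) + 0 - 0 = 0 by norm_num]
    · rw [show (0 : ℝ) + 0 - 1 = -1 by norm_num]; exact hac
  · rcases two (c ![-1, 0]) with ha | ha <;> rcases two (c ![1, 0]) with hd | hd
    · exact hac (by rw [ha, hd])
    · rcases two (c ![0, 0]) with ho | ho
      · apply key (-1 / 2)
        · rw [show (-1 / 2 : ℝ) + -1 / 2 - (-1) = 0 by norm_num, ho, ha]
        · rw [show (-1 / 2 : ℝ) + -1 / 2 - 0 = -1 by norm_num, ho, ha]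
        · rw [hd]; exact off _ (by norm_num) (by norm_num) (by norm_num)
      · apply key (-1)
        · rw [show (-1 : ℝ) + -1 - (-1) = -1 by norm_num]
        · rw [ho]; exact off _ (by norm_num) (by norm_num) (by norm_num)
        · rw [hd]; exact off _ (by norm_num) (by norm_num) (by norm_num)
    · rcases two (c ![0, 0]) with ho | ho
      · apply key (1 / 2)
        · rw [ha]; exact off _ (by norm_num) (by norm_num) (by norm_num)
        · rw [show (1 / 2 : ℝ) + 1 / 2 - 0 = 1 by norm_num, ho, hd]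
        · rw [show (1 / 2 : ℝ) + 1 / 2 - 1 = 0 by norm_num, ho, hd]
      · apply key 1
        · rw [ha]; exact off _ (by norm_num) (by norm_num) (by norm_num)
        · rw [ho]; exact off _ (by norm_num) (by norm_num) (by norm_num)
        · rw [show (1 : ℝ) + 1 - 1 = 1 by norm_num]
    · exact hac (by rw [ha, hd])

theorem result : extD SE2 (Fin 2 → ℝ) = 4 := by
  apply le_antisymm
  · refine sInf_le ⟨4, rfl, fun W _ hW => extProp_of_four ?_⟩
    exact_mod_cast hW
  · refine le_sInf ?_
    rintro n ⟨m, rfl, hm⟩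
    by_contra hcon
    push Not at hcon
    have h3 : (m : ℕ∞) ≤ 3 := by
      have : m < 4 := by exact_mod_cast hcon
      have : m ≤ 3 := by omega
      exact_mod_cast this
    exact not_extProp_W₃ (hm W₃ W₃_admissible (by rw [W₃_encard]; exact h3))

end Pool.Agent.Results.MP_8e2340_co.ExtNumberFour
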